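import Pool.Agent.V5helper76.AQ.Ord

/-!
# Cantor sets in the line and the action of the automorphisms of `ℚ` on the gaps
-/

set_option autoImplicit false

open Set Topology Filter

namespace Pool.Agent.V5helper76.AQ

/-- A Cantor set contained in the real line: a nonempty compact totally disconnected set without
isolated points. -/
structure LinCantor where
  /-- the set -/
  carrier : Set ℝ
  nonempty : carrier.Nonempty
  compact : IsCompact carrier
  perfect : ∀ x ∈ carrier, AccPt x (𝓟 carrier)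
  totallyDisconnected : IsTotallyDisconnected carrier

namespace LinCantor

variable (K : LinCantor)

theorem exists_not_mem {x y : ℝ} (h : x < y) : ∃ z, x < z ∧ z < y ∧ z ∉ K.carrier := by
  by_contra hc
  push Not at hc
  have h1 : Ioo x y ⊆ K.carrier := fun z hz => hc z hz.1 hz.2
  have h2 := K.totallyDisconnected _ h1 isPreconnected_Ioo
  obtain ⟨a, ha1, ha2⟩ := exists_between h
  obtain ⟨b, hb1, hb2⟩ := exists_between ha2
  exact hb1.ne (h2 ⟨ha1, ha2⟩ ⟨ha1.trans hb1, hb2⟩)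

theorem dense_compl : Dense (K.carrierᶜ) := by
  rw [dense_iff_exists_between]
  intro a b hab
  obtain ⟨z, h1, h2, h3⟩ := K.exists_not_mem hab
  exact ⟨z, h3, h1, h2⟩

theorem exists_near {x a b : ℝ} (hx : x ∈ K.carrier) (ha : a < x) (hb : x < b) :
    ∃ y ∈ K.carrier, a < y ∧ y < b ∧ y ≠ x := by
  have h := (accPt_iff_nhds.1 (K.perfect x hx)) (Ioo a b) (Ioo_mem_nhds ha hb)
  obtain ⟨y, ⟨hy1, hy2⟩, hy3⟩ := h
  exact ⟨y, hy2, hy1.1, hy1.2, hy3⟩

/-- The gaps: the bounded components of the complement. -/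
def Gap : Type := {p : ℝ × ℝ // p.1 ∈ K.carrier ∧ p.2 ∈ K.carrier ∧ p.1 < p.2 ∧
  ∀ x ∈ K.carrier, x ≤ p.1 ∨ p.2 ≤ x}

variable {K}

/-- left endpoint -/
def Gap.l (g : K.Gap) : ℝ := g.1.1
/-- right endpoint -/
def Gap.r (g : K.Gap) : ℝ := g.1.2

theorem Gap.l_mem (g : K.Gap) : g.l ∈ K.carrier := g.2.1
theorem Gap.r_mem (g : K.Gap) : g.r ∈ K.carrier := g.2.2.1
theorem Gap.lt (g : K.Gap) : g.l < g.r := g.2.2.2.1
theorem Gap.alt (g : K.Gap) {x : ℝ} (hx : x ∈ K.carrier) : x ≤ g.l ∨ g.r ≤ x := g.2.2.2.2 x hx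

theorem Gap.not_mem (g : K.Gap) {x : ℝ} (h1 : g.l < x) (h2 : x < g.r) : x ∉ K.carrier := by
  intro hx
  rcases g.alt hx with h | h
  · exact absurd h1 (not_lt.2 h)
  · exact absurd h2 (not_lt.2 h)

theorem Gap.l_inj : Function.Injective (Gap.l : K.Gap → ℝ) := by
  intro g h hgh
  have h1 : g.r = h.r := by
    apply le_antisymm
    · rcases g.alt h.r_mem with h1 | h1
      · have := h.lt; rw [← hgh] at this
        exact absurd this (not_lt.2 h1)
      · exact h1
    · rcases h.alt g.r_mem with h1 | h1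
      · have := g.lt; rw [hgh] at this
        exact absurd this (not_lt.2 h1)
      · exact h1
  exact Subtype.ext (Prod.ext hgh h1)

noncomputable instance : LinearOrder K.Gap := LinearOrder.lift' Gap.l Gap.l_inj

theorem Gap.lt_iff {g h : K.Gap} : g < h ↔ g.l < h.l := Iff.rfl

theorem Gap.sep {g h : K.Gap} (hgh : g < h) : g.r < h.l := by
  rw [Gap.lt_iff] at hgh
  rcases g.alt h.l_mem with h1 | h1
  · exact absurd hgh (not_lt.2 h1)
  · refine lt_of_le_of_ne h1 fun he => ?_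
    obtain ⟨y, hy, h2, h3, h4⟩ := K.exists_near g.r_mem g.lt (by rw [he]; exact h.lt)
    rcases g.alt hy with h5 | h5
    · exact absurd h2 (not_lt.2 h5)
    · rcases h.alt hy with h6 | h6
      · exact h4 (le_antisymm (by rw [he]; exact h6) h5)
      · exact absurd h3 (not_lt.2 h6)

/-- two gaps with a common point are equal -/
theorem Gap.eq_of_mem {g h : K.Gap} {x : ℝ} (h1 : g.l < x) (h2 : x < g.r) (h3 : h.l < x)
    (h4 : x < h.r) : g = h := by
  rcases lt_trichotomy g h with hlt | heq | hlt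
  · have := Gap.sep hlt
    linarith
  · exact heq
  · have := Gap.sep hlt
    linarith

theorem exists_gap {x a b : ℝ} (hx : x ∉ K.carrier) (ha : a ∈ K.carrier) (hb : b ∈ K.carrier)
    (hax : a ≤ x) (hxb : x ≤ b) : ∃ g : K.Gap, g.l < x ∧ x < g.r ∧ a ≤ g.l ∧ g.r ≤ b := by
  have hcl : IsClosed K.carrier := K.compact.isClosed
  have h1 : (K.carrier ∩ Iic x).Nonempty := ⟨a, ha, hax⟩
  have h2 : (K.carrier ∩ Ici x).Nonempty := ⟨b, hb, hxb⟩
  have b1 : BddAbove (K.carrier ∩ Iic x) := ⟨x, fun y hy => hy.2⟩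
  have b2 : BddBelow (K.carrier ∩ Ici x) := ⟨x, fun y hy => hy.2⟩
  have m1 := (hcl.inter isClosed_Iic).csSup_mem h1 b1
  have m2 := (hcl.inter isClosed_Ici).csInf_mem h2 b2
  have n1 : sSup (K.carrier ∩ Iic x) < x := lt_of_le_of_ne m1.2 fun h => hx (h ▸ m1.1)
  have n2 : x < sInf (K.carrier ∩ Ici x) := lt_of_le_of_ne m2.2 fun h => hx (h.symm ▸ m2.1)
  refine ⟨⟨(sSup (K.carrier ∩ Iic x), sInf (K.carrier ∩ Ici x)), m1.1, m2.1, n1.trans n2, ?_⟩,
    n1, n2, le_csSup b1 ⟨ha, hax⟩, csInf_le b2 ⟨hb, hxb⟩⟩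
  intro y hy
  rcases le_total y x with h | h
  · exact Or.inl (le_csSup b1 ⟨hy, h⟩)
  · exact Or.inr (csInf_le b2 ⟨hy, h⟩)

instance : Nonempty K.Gap := by
  obtain ⟨x, hx⟩ := K.nonempty
  obtain ⟨y, hy, -, -, hne⟩ := K.exists_near hx (sub_one_lt x) (lt_add_one x)
  rcases lt_or_gt_of_ne hne with h | h
  · obtain ⟨z, h1, h2, h3⟩ := K.exists_not_mem h
    obtain ⟨g, -⟩ := exists_gap h3 hy hx h1.le h2.le
    exact ⟨g⟩
  · obtain ⟨z, h1, h2, h3⟩ := K.exists_not_mem h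
    obtain ⟨g, -⟩ := exists_gap h3 hx hy h1.le h2.le
    exact ⟨g⟩

instance : Countable K.Gap := by
  have h : ∀ g : K.Gap, ∃ q : ℚ, g.l < q ∧ (q : ℝ) < g.r := fun g => exists_rat_btwn g.lt
  choose q hq using h
  refine Function.Injective.countable (f := q) ?_
  intro g h hgh
  exact Gap.eq_of_mem (hq g).1 (hq g).2 (by rw [hgh]; exact (hq h).1) (by rw [hgh]; exact (hq h).2)

instance : DenselyOrdered K.Gap := by
  refine ⟨fun g h hgh => ?_⟩
  obtain ⟨z, h1, h2, h3⟩ := K.exists_not_mem (Gap.sep hgh)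
  obtain ⟨k, k1, k2, k3, k4⟩ := exists_gap h3 g.r_mem h.l_mem h1.le h2.le
  refine ⟨k, ?_, ?_⟩
  · rw [Gap.lt_iff]; exact g.lt.trans_le k3
  · rw [Gap.lt_iff]; exact k.lt.trans_le k4

instance : NoMinOrder K.Gap := by
  refine ⟨fun g => ?_⟩
  obtain ⟨y, hy, h2, h3, h4⟩ := K.exists_near g.l_mem (sub_one_lt _) g.lt
  have h5 : y < g.l := by
    rcases g.alt hy with h5 | h5
    · exact lt_of_le_of_ne h5 h4
    · exact absurd h3 (not_lt.2 h5)
  obtain ⟨z, z1, z2, z3⟩ := K.exists_not_mem h5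
  obtain ⟨k, k1, k2, k3, k4⟩ := exists_gap z3 hy g.l_mem z1.le z2.le
  refine ⟨k, ?_⟩
  rw [Gap.lt_iff]; exact k.lt.trans_le k4

instance : NoMaxOrder K.Gap := by
  refine ⟨fun g => ?_⟩
  obtain ⟨y, hy, h2, h3, h4⟩ := K.exists_near g.r_mem g.lt (lt_add_one _)
  have h5 : g.r < y := by
    rcases g.alt hy with h5 | h5
    · exact absurd h2 (not_lt.2 h5)
    · exact lt_of_le_of_ne h5 (Ne.symm h4)
  obtain ⟨z, z1, z2, z3⟩ := K.exists_not_mem h5
  obtain ⟨k, k1, k2, k3, k4⟩ := exists_gap z3 g.r_mem hy z1.le z2.le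
  refine ⟨k, ?_⟩
  rw [Gap.lt_iff]; exact g.lt.trans_le k3

theorem nonempty_iso : Nonempty (K.Gap ≃o ℚ) := Order.iso_of_countable_dense _ _

/-! ### The action on the complement -/

/-- the affine map of the gap `g` onto the gap `h` -/
noncomputable def aff (g h : K.Gap) (x : ℝ) : ℝ := h.l + (x - g.l) / (g.r - g.l) * (h.r - h.l)

theorem aff_mono (g h : K.Gap) : StrictMono (aff g h) := by
  intro x y hxy
  unfold aff
  have h1 : 0 < g.r - g.l := sub_pos.2 g.lt
  have h2 : 0 < h.r - h.l := sub_pos.2 h.lt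
  have h3 : (x - g.l) / (g.r - g.l) < (y - g.l) / (g.r - g.l) := by
    apply div_lt_div_of_pos_right _ h1
    linarith
  have := mul_lt_mul_of_pos_right h3 h2
  linarith

theorem aff_l (g h : K.Gap) : aff g h g.l = h.l := by simp [aff]

theorem aff_r (g h : K.Gap) : aff g h g.r = h.r := by
  have h1 : g.r - g.l ≠ 0 := (sub_pos.2 g.lt).ne'
  simp [aff, div_self h1]

theorem aff_mem (g h : K.Gap) {x : ℝ} (h1 : g.l < x) (h2 : x < g.r) :
    h.l < aff g h x ∧ aff g h x < h.r := by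
  have a := aff_mono g h h1
  have b := aff_mono g h h2
  rw [aff_l] at a
  rw [aff_r] at b
  exact ⟨a, b⟩

theorem aff_comp (g h k : K.Gap) (x : ℝ) : aff h k (aff g h x) = aff g k x := by
  unfold aff
  have h1 : g.r - g.l ≠ 0 := (sub_pos.2 g.lt).ne'
  have h2 : h.r - h.l ≠ 0 := (sub_pos.2 h.lt).ne'
  field_simp
  ring

theorem aff_self (g : K.Gap) (x : ℝ) : aff g g x = x := by
  unfold aff
  have h1 : g.r - g.l ≠ 0 := (sub_pos.2 g.lt).ne'
  field_simp
  ring

open Classical in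
/-- the map of the complement of `K` given by a permutation of the gaps -/
noncomputable def step (φ : K.Gap ≃o K.Gap) (x : ℝ) : ℝ :=
  if h : ∃ g : K.Gap, g.l < x ∧ x < g.r then aff h.choose (φ h.choose) x else x

theorem step_gap (φ : K.Gap ≃o K.Gap) {g : K.Gap} {x : ℝ} (h1 : g.l < x) (h2 : x < g.r) :
    step φ x = aff g (φ g) x := by
  have h : ∃ g : K.Gap, g.l < x ∧ x < g.r := ⟨g, h1, h2⟩
  unfold step
  rw [dif_pos h]
  rw [Gap.eq_of_mem h.choose_spec.1 h.choose_spec.2 h1 h2]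

theorem step_out (φ : K.Gap ≃o K.Gap) {x : ℝ} (h : ¬ ∃ g : K.Gap, g.l < x ∧ x < g.r) :
    step φ x = x := by
  unfold step
  rw [dif_neg h]

/-- a point of the complement outside all gaps is below or above `K` -/
theorem out_cases {x : ℝ} (hx : x ∉ K.carrier) (h : ¬ ∃ g : K.Gap, g.l < x ∧ x < g.r) :
    (∀ y ∈ K.carrier, x < y) ∨ (∀ y ∈ K.carrier, y < x) := by
  by_contra hc
  rw [not_or] at hc
  push Not at hc
  obtain ⟨⟨a, ha, ha'⟩, ⟨b, hb, hb'⟩⟩ := hc
  obtain ⟨g, h1, h2, -⟩ := exists_gap hx ha hb ha' hb'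
  exact h ⟨g, h1, h2⟩

theorem step_not_mem (φ : K.Gap ≃o K.Gap) {x : ℝ} (hx : x ∉ K.carrier) :
    step φ x ∉ K.carrier := by
  by_cases h : ∃ g : K.Gap, g.l < x ∧ x < g.r
  · obtain ⟨g, h1, h2⟩ := h
    rw [step_gap φ h1 h2]
    obtain ⟨h3, h4⟩ := aff_mem g (φ g) h1 h2
    exact (φ g).not_mem h3 h4
  · rw [step_out φ h]; exact hx

theorem step_mono (φ : K.Gap ≃o K.Gap) : StrictMonoOn (step φ) K.carrierᶜ := by
  intro x hx y hy hxy
  by_cases h : ∃ g : K.Gap, g.l < x ∧ x < g.r <;> by_cases h' : ∃ g : K.Gap, g.l < y ∧ y < g.r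
  · obtain ⟨g, h1, h2⟩ := h
    obtain ⟨g', h1', h2'⟩ := h'
    rw [step_gap φ h1 h2, step_gap φ h1' h2']
    rcases lt_trichotomy g g' with hlt | heq | hlt
    · have h3 := Gap.sep (φ.lt_iff_lt.2 hlt)
      exact ((aff_mem g (φ g) h1 h2).2.trans h3).trans (aff_mem g' (φ g') h1' h2').1
    · subst heq
      exact aff_mono _ _ hxy
    · have := Gap.sep hlt
      linarith
  · obtain ⟨g, h1, h2⟩ := h
    rw [step_gap φ h1 h2, step_out φ h']
    rcases out_cases hy h' with h3 | h3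
    · have := h3 _ g.l_mem
      linarith
    · exact (aff_mem g (φ g) h1 h2).2.trans (h3 _ (φ g).r_mem)
  · obtain ⟨g', h1', h2'⟩ := h'
    rw [step_gap φ h1' h2', step_out φ h]
    rcases out_cases hx h with h3 | h3
    · exact (h3 _ (φ g').l_mem).trans (aff_mem g' (φ g') h1' h2').1
    · have := h3 _ g'.r_mem
      linarith
  · rw [step_out φ h, step_out φ h']
    exact hxy

theorem step_comp (ψ φ : K.Gap ≃o K.Gap) (x : ℝ) :
    step ψ (step φ x) = step (ψ * φ) x := by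
  by_cases h : ∃ g : K.Gap, g.l < x ∧ x < g.r
  · obtain ⟨g, h1, h2⟩ := h
    obtain ⟨h3, h4⟩ := aff_mem g (φ g) h1 h2
    rw [step_gap φ h1 h2, step_gap _ h1 h2, step_gap ψ h3 h4, aff_comp]
    rfl
  · rw [step_out φ h, step_out _ h, step_out _ h]

theorem step_one (x : ℝ) : step (1 : K.Gap ≃o K.Gap) x = x := by
  by_cases h : ∃ g : K.Gap, g.l < x ∧ x < g.r
  · obtain ⟨g, h1, h2⟩ := h
    rw [step_gap _ h1 h2]
    exact aff_self g x
  · rw [step_out _ h]

/-! ### Extension from a dense set -/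

theorem exists_ext {D : Set ℝ} (hD : Dense D) {f g : ℝ → ℝ} (hf : StrictMonoOn f D)
    (hg : StrictMonoOn g D) (hfD : ∀ x ∈ D, f x ∈ D) (hgD : ∀ x ∈ D, g x ∈ D)
    (hfg : ∀ x ∈ D, f (g x) = x) (hgf : ∀ x ∈ D, g (f x) = x) :
    ∃ F : ℝ ≃o ℝ, ∀ x ∈ D, F x = f x := by
  have hD : ∀ {a b : ℝ}, a < b → ∃ c ∈ D, a < c ∧ c < b := fun {a b} h =>
    dense_iff_exists_between.1 hD a b h
  have key : ∀ {f g : ℝ → ℝ}, StrictMonoOn f D → StrictMonoOn g D → (∀ x ∈ D, f x ∈ D) →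
      (∀ x ∈ D, g x ∈ D) → (∀ x ∈ D, f (g x) = x) → (∀ x ∈ D, g (f x) = x) →
      ∃ F : ℝ → ℝ, StrictMono F ∧ ∀ x ∈ D, F x = f x := by
    intro f g hf hg hfD hgD hfg hgf
    have hne : ∀ x : ℝ, (f '' (D ∩ Iio x)).Nonempty := by
      intro x
      obtain ⟨d, hd, h1, h2⟩ := hD (sub_one_lt x)
      exact ⟨f d, d, ⟨hd, h2⟩, rfl⟩
    have hub : ∀ x : ℝ, ∀ d ∈ D, x ≤ d → ∀ y ∈ f '' (D ∩ Iio x), y ≤ f d := by
      rintro x d hd hxd _ ⟨z, ⟨hz, hz2⟩, rfl⟩
      exact (hf hz hd (lt_of_lt_of_le hz2 hxd)).le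
    have hbdd : ∀ x : ℝ, BddAbove (f '' (D ∩ Iio x)) := by
      intro x
      obtain ⟨d, hd, h1, h2⟩ := hD (lt_add_one x)
      exact ⟨f d, hub x d hd h1.le⟩
    refine ⟨fun x => sSup (f '' (D ∩ Iio x)), ?_, ?_⟩
    · intro x y hxy
      obtain ⟨d, hd, h1, h2⟩ := hD hxy
      obtain ⟨e, he, h3, h4⟩ := hD h2
      have a1 : sSup (f '' (D ∩ Iio x)) ≤ f d := csSup_le (hne x) (hub x d hd h1.le)
      have a2 : f d < f e := hf hd he h3
      have a3 : f e ≤ sSup (f '' (D ∩ Iio y)) := le_csSup (hbdd y) ⟨e, ⟨he, h4⟩, rfl⟩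
      exact (a1.trans_lt a2).trans_le a3
    · intro x hx
      apply le_antisymm
      · exact csSup_le (hne x) (hub x x hx le_rfl)
      · by_contra hc
        push Not at hc
        obtain ⟨e, he, h1, h2⟩ := hD hc
        have h3 : g e < x := by
          have := hg he (hfD x hx) h2
          rwa [hgf x hx] at this
        have h4 : e ≤ sSup (f '' (D ∩ Iio x)) := le_csSup (hbdd x) ⟨g e, ⟨hgD e he, h3⟩, hfg e he⟩
        exact absurd h1 (not_lt.2 h4)
  obtain ⟨F, hF, hFf⟩ := key hf hg hfD hgD hfg hgf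
  obtain ⟨G, hG, hGg⟩ := key hg hf hgD hfD hgf hfg
  have hFG : ∀ x, F (G x) = x := by
    intro x
    rcases lt_trichotomy (F (G x)) x with h | h | h
    · obtain ⟨d, hd, h1, h2⟩ := hD h
      have h3 := hF (hG h2)
      rw [hGg d hd, hFf _ (hgD d hd), hfg d hd] at h3
      exact absurd h1 (not_lt.2 h3.le)
    · exact h
    · obtain ⟨d, hd, h1, h2⟩ := hD h
      have h3 := hF (hG h1)
      rw [hGg d hd, hFf _ (hgD d hd), hfg d hd] at h3
      exact absurd h2 (not_lt.2 h3.le)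
  exact ⟨hF.orderIsoOfRightInverse F G hFG, hFf⟩

theorem exists_ext_step (φ : K.Gap ≃o K.Gap) :
    ∃ F : ℝ ≃o ℝ, ∀ x ∉ K.carrier, F x = step φ x := by
  refine exists_ext (K.dense_compl) (g := step φ⁻¹) (step_mono φ) (step_mono φ⁻¹)
    (fun x hx => step_not_mem φ hx) (fun x hx => step_not_mem _ hx) ?_ ?_
  · intro x _
    rw [step_comp, mul_inv_cancel, step_one]
  · intro x _
    rw [step_comp, inv_mul_cancel, step_one]

noncomputable def extFun (φ : K.Gap ≃o K.Gap) : ℝ ≃o ℝ := (exists_ext_step φ).choose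

theorem extFun_apply (φ : K.Gap ≃o K.Gap) {x : ℝ} (hx : x ∉ K.carrier) :
    extFun φ x = step φ x := (exists_ext_step φ).choose_spec x hx

theorem ext_unique {F G : ℝ ≃o ℝ} (h : ∀ x ∉ K.carrier, F x = G x) : F = G := by
  have := Continuous.ext_on (K.dense_compl) F.continuous G.continuous h
  exact OrderIso.ext this

/-- the action of the automorphisms of the set of gaps on the line -/
noncomputable def extHom : (K.Gap ≃o K.Gap) →* (ℝ ≃o ℝ) where
  toFun := extFun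
  map_one' := by
    apply ext_unique (K := K)
    intro x hx
    rw [extFun_apply _ hx, step_one]
    rfl
  map_mul' φ ψ := by
    apply ext_unique (K := K)
    intro x hx
    rw [extFun_apply _ hx]
    show step (φ * ψ) x = extFun φ (extFun ψ x)
    rw [extFun_apply ψ hx, extFun_apply φ (step_not_mem ψ hx), step_comp]

theorem extHom_apply (φ : K.Gap ≃o K.Gap) {x : ℝ} (hx : x ∉ K.carrier) :
    extHom φ x = step φ x := extFun_apply φ hx

theorem extHom_mem (φ : K.Gap ≃o K.Gap) (x : ℝ) : extHom φ x ∈ K.carrier ↔ x ∈ K.carrier := by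
  have key : ∀ (φ : K.Gap ≃o K.Gap) (x : ℝ), x ∉ K.carrier → extHom φ x ∉ K.carrier := by
    intro φ x hx
    rw [extHom_apply φ hx]
    exact step_not_mem φ hx
  constructor
  · intro h
    by_contra hc
    exact key φ x hc h
  · intro h
    by_contra hc
    have h1 := key φ⁻¹ _ hc
    have h2 : extHom φ⁻¹ (extHom φ x) = x := by
      show (extHom φ⁻¹ * extHom φ) x = x
      rw [← map_mul, inv_mul_cancel, map_one]
      rfl
    rw [h2] at h1
    exact h1 h

theorem extHom_faithful {φ : K.Gap ≃o K.Gap} (h : ∀ x ∈ K.carrier, extHom φ x = x) : φ = 1 := by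
  ext g
  show φ g = g
  obtain ⟨z, h1, h2⟩ := exists_between g.lt
  have h3 := extHom_apply φ (g.not_mem h1 h2)
  rw [step_gap φ h1 h2] at h3
  obtain ⟨h4, h5⟩ := aff_mem g (φ g) h1 h2
  rw [← h3] at h4 h5
  have h6 := (extHom φ).lt_iff_lt.2 h1
  have h7 := (extHom φ).lt_iff_lt.2 h2
  rw [h _ g.l_mem] at h6
  rw [h _ g.r_mem] at h7
  exact Gap.eq_of_mem h4 h5 h6 h7

/-! ### The action of the automorphisms of `ℚ` -/

variable (K)

noncomputable def iso : K.Gap ≃o ℚ := nonempty_iso.some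

noncomputable def conjHom : AutQ →* (K.Gap ≃o K.Gap) where
  toFun φ := (K.iso.trans φ).trans K.iso.symm
  map_one' := by
    ext g
    show K.iso.symm (K.iso g) = g
    rw [OrderIso.symm_apply_apply]
  map_mul' φ ψ := by
    ext g
    show K.iso.symm (φ (ψ (K.iso g))) =
      K.iso.symm (φ (K.iso (K.iso.symm (ψ (K.iso g)))))
    rw [OrderIso.apply_symm_apply]

/-- The action of the automorphisms of `ℚ` on the line, preserving the Cantor set. -/
noncomputable def act : AutQ →* (ℝ ≃o ℝ) := extHom.comp K.conjHom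

theorem act_mem (φ : AutQ) (x : ℝ) : K.act φ x ∈ K.carrier ↔ x ∈ K.carrier := extHom_mem _ x

theorem act_faithful {φ : AutQ} (h : ∀ x ∈ K.carrier, K.act φ x = x) : φ = 1 := by
  have h1 := extHom_faithful (φ := K.conjHom φ) h
  ext q
  show φ q = q
  have h2 : K.conjHom φ (K.iso.symm q) = K.iso.symm q := by rw [h1]; rfl
  have h3 : K.iso.symm (φ (K.iso (K.iso.symm q))) = K.iso.symm q := h2
  rw [OrderIso.apply_symm_apply] at h3
  exact K.iso.symm.injective h3

end LinCantor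

end Pool.Agent.V5helper76.AQ
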