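import Mathlib

/-!
# Homogeneous quasimorphisms and invariant means, group theory
-/

set_option autoImplicit false

open Set
open scoped Pointwise

namespace Pool.Agent.V5helper76.AQ

/-- A homogeneous quasimorphism: a function of bounded defect with `φ (g ^ n) = n φ g`. -/
structure IsHQ {G : Type} [Group G] (φ : G → ℝ) : Prop where
  defect : ∃ D : ℝ, ∀ g h, |φ (g * h) - φ g - φ h| ≤ D
  hom : ∀ (g : G) (n : ℤ), φ (g ^ n) = n * φ g

theorem eq_of_bdd {x y C : ℝ} (h : ∀ n : ℕ, |(n : ℝ) * (x - y)| ≤ C) : x = y := by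
  by_contra hne
  have hpos : 0 < |x - y| := abs_pos.2 (sub_ne_zero.2 hne)
  obtain ⟨n, hn⟩ := exists_nat_gt (C / |x - y|)
  have h1 := h n
  rw [abs_mul, Nat.abs_cast] at h1
  rw [div_lt_iff₀ hpos] at hn
  linarith

section

variable {G : Type} [Group G] {φ : G → ℝ}

theorem IsHQ.pow (hφ : IsHQ φ) (g : G) (n : ℕ) : φ (g ^ n) = n * φ g := by
  have := hφ.hom g n
  simpa using this

theorem IsHQ.inv (hφ : IsHQ φ) (g : G) : φ g⁻¹ = - φ g := by
  have := hφ.hom g (-1)
  simpa using this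

theorem IsHQ.one (hφ : IsHQ φ) : φ 1 = 0 := by
  have := hφ.hom 1 0
  simpa using this

theorem IsHQ.conj (hφ : IsHQ φ) (g x : G) : φ (g * x * g⁻¹) = φ x := by
  obtain ⟨D, hD⟩ := hφ.defect
  apply eq_of_bdd (C := 2 * D)
  intro n
  have h1 : φ ((g * x * g⁻¹) ^ n) = n * φ (g * x * g⁻¹) := hφ.pow _ n
  have h2 : (g * x * g⁻¹) ^ n = g * x ^ n * g⁻¹ := by
    rw [conj_pow]
  have h3 := hD (g * x ^ n) g⁻¹
  have h4 := hD g (x ^ n)
  rw [hφ.inv] at h3
  rw [hφ.pow] at h4
  rw [h2] at h1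
  rw [abs_le] at h3 h4 ⊢
  constructor <;> nlinarith [h3.1, h3.2, h4.1, h4.2]

theorem IsHQ.comm (hφ : IsHQ φ) {x y : G} (h : Commute x y) : φ (x * y) = φ x + φ y := by
  obtain ⟨D, hD⟩ := hφ.defect
  apply eq_of_bdd (C := D)
  intro n
  have h1 : φ ((x * y) ^ n) = n * φ (x * y) := hφ.pow _ n
  rw [h.mul_pow] at h1
  have h3 := hD (x ^ n) (y ^ n)
  rw [hφ.pow, hφ.pow, h1] at h3
  rw [abs_le] at h3 ⊢
  constructor <;> nlinarith [h3.1, h3.2]

/-- the product of `x` and its conjugates by `t`, `t ^ 2`, ... -/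
def tower (t : G) : ℕ → G → G
  | 0, _ => 1
  | n + 1, x => x * (t * tower t n x * t⁻¹)

theorem commute_tower {t x y : G} (h : ∀ k : ℕ, 1 ≤ k → Commute x (t ^ k * y * (t ^ k)⁻¹)) (n : ℕ) :
    ∀ k : ℕ, 1 ≤ k → Commute x (t ^ k * tower t n y * (t ^ k)⁻¹) := by
  induction n with
  | zero => intro k _; simp [tower]
  | succ n ih =>
    intro k hk
    have h1 : t ^ k * tower t (n + 1) y * (t ^ k)⁻¹ =
        (t ^ k * y * (t ^ k)⁻¹) * (t ^ (k + 1) * tower t n y * (t ^ (k + 1))⁻¹) := by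
      simp only [tower, pow_succ]
      group
    rw [h1]
    exact (h k hk).mul_right (ih (k + 1) (by omega))

theorem IsHQ.tower (hφ : IsHQ φ) {t x : G}
    (h : ∀ k : ℕ, 1 ≤ k → Commute x (t ^ k * x * (t ^ k)⁻¹)) (n : ℕ) :
    φ (tower t n x) = n * φ x := by
  induction n with
  | zero => simp [AQ.tower, hφ.one]
  | succ n ih =>
    have h1 := commute_tower h n 1 le_rfl
    rw [pow_one] at h1
    rw [AQ.tower, hφ.comm h1, hφ.conj, ih]
    push_cast; ring

theorem tower_mul {t a b : G} (h : ∀ k : ℕ, 1 ≤ k → Commute b (t ^ k * a * (t ^ k)⁻¹)) (n : ℕ) :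
    tower t n (a * b) = tower t n a * tower t n b := by
  induction n with
  | zero => simp [tower]
  | succ n ih =>
    have h1 := commute_tower h n 1 le_rfl
    rw [pow_one] at h1
    simp only [tower]
    rw [ih]
    have h2 : a * b * (t * (tower t n a * tower t n b) * t⁻¹) =
        a * (b * (t * tower t n a * t⁻¹)) * (t * tower t n b * t⁻¹) := by group
    rw [h2, h1.eq]
    group

/-- If the conjugates of `a` and `b` by the powers of `t` commute with `a` and `b`, then `φ` is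
additive on `a`, `b`. -/
theorem IsHQ.add_of_tower (hφ : IsHQ φ) {t a b : G}
    (haa : ∀ k : ℕ, 1 ≤ k → Commute a (t ^ k * a * (t ^ k)⁻¹))
    (hbb : ∀ k : ℕ, 1 ≤ k → Commute b (t ^ k * b * (t ^ k)⁻¹))
    (hba : ∀ k : ℕ, 1 ≤ k → Commute b (t ^ k * a * (t ^ k)⁻¹))
    (hab : ∀ k : ℕ, 1 ≤ k → Commute a (t ^ k * b * (t ^ k)⁻¹)) :
    φ (a * b) = φ a + φ b := by
  obtain ⟨D, hD⟩ := hφ.defect
  apply eq_of_bdd (C := D)
  intro n
  have hc : ∀ k : ℕ, 1 ≤ k → Commute (a * b) (t ^ k * (a * b) * (t ^ k)⁻¹) := by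
    intro k hk
    have h1 : t ^ k * (a * b) * (t ^ k)⁻¹ = (t ^ k * a * (t ^ k)⁻¹) * (t ^ k * b * (t ^ k)⁻¹) := by
      group
    rw [h1]
    exact ((haa k hk).mul_left (hba k hk)).mul_right ((hab k hk).mul_left (hbb k hk))
  have h1 := hφ.tower hc n
  rw [tower_mul hba] at h1
  have h3 := hD (AQ.tower t n a) (AQ.tower t n b)
  rw [hφ.tower haa, hφ.tower hbb, h1] at h3
  rw [abs_le] at h3 ⊢
  constructor <;> nlinarith [h3.1, h3.2]

/-- If `φ` is additive on the kernel of a homomorphism onto `ℤ` then it is additive. -/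
theorem IsHQ.additive_of_ker (hφ : IsHQ φ) (p : G → ℤ) (hp : ∀ g h, p (g * h) = p g + p h)
    (T : G) (hT : p T = 1) (hker : ∀ a b, p a = 0 → p b = 0 → φ (a * b) = φ a + φ b) (g h : G) :
    φ (g * h) = φ g + φ h := by
  obtain ⟨D, hD⟩ := hφ.defect
  have hp1 : p 1 = 0 := by have := hp 1 1; simp at this; exact this
  have hpinv : ∀ g, p g⁻¹ = - p g := by
    intro g
    have := hp g g⁻¹
    rw [mul_inv_cancel, hp1] at this
    omega
  have hpp : ∀ (g : G) (n : ℕ), p (g ^ n) = n * p g := by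
    intro g n
    induction n with
    | zero => simp [hp1]
    | succ n ih => rw [pow_succ, hp, ih]; push_cast; ring
  have hpT : ∀ n : ℤ, p (T ^ n) = n := by
    intro n
    obtain ⟨m, rfl | rfl⟩ := n.eq_nat_or_neg
    · rw [zpow_natCast, hpp, hT, mul_one]
    · rw [zpow_neg, zpow_natCast, hpinv, hpp, hT, mul_one]
  let ψ : G → ℝ := fun g => φ (g * (T ^ p g)⁻¹) + p g * φ T
  have hk : ∀ g, p (g * (T ^ p g)⁻¹) = 0 := by
    intro g
    rw [hp, hpinv, hpT]; ring
  have hψ : ∀ g h, ψ (g * h) = ψ g + ψ h := by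
    intro g h
    simp only [ψ]
    have h1 : g * h * (T ^ p (g * h))⁻¹ =
        (g * (T ^ p g)⁻¹) * (T ^ p g * (h * (T ^ p h)⁻¹) * (T ^ p g)⁻¹) := by
      rw [hp, zpow_add]; group
    rw [h1, hker _ _ (hk g) (by rw [hp, hp, hk, hpinv]; ring), hφ.conj, hp]
    push_cast; ring
  have hψn : ∀ (g : G) (n : ℕ), ψ (g ^ n) = n * ψ g := by
    intro g n
    induction n with
    | zero =>
      simp only [ψ, pow_zero, hp1, zpow_zero, inv_one, mul_one, hφ.one]
      simp
    | succ n ih => rw [pow_succ, hψ, ih]; push_cast; ring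
  have hclose : ∀ g, |φ g - ψ g| ≤ D := by
    intro g
    have h1 := hD (g * (T ^ p g)⁻¹) (T ^ p g)
    rw [inv_mul_cancel_right, hφ.hom] at h1
    simp only [ψ]
    rw [abs_le] at h1 ⊢
    constructor <;> linarith [h1.1, h1.2]
  have heq : ∀ g, φ g = ψ g := by
    intro g
    apply eq_of_bdd (C := D)
    intro n
    have h1 := hclose (g ^ n)
    rw [hφ.pow, hψn] at h1
    rwa [mul_sub]
  rw [heq, heq, heq, hψ]

end

/-- A group is amenable (as a discrete group): there is a left-invariant finitely additive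
probability measure defined on all its subsets. -/
def Amenable (G : Type) [Group G] : Prop :=
  ∃ m : Set G → ℝ, (∀ A, 0 ≤ m A) ∧ m univ = 1 ∧
    (∀ A B, Disjoint A B → m (A ∪ B) = m A + m B) ∧ ∀ (g : G) (A : Set G), m (g • A) = m A

/-- If `G` is amenable and a group `F` with an injection into `G` acts on a nonempty set `X` then
`X` has an `F`-invariant mean. -/
theorem exists_mean {G F X : Type} [Group G] [Group F] [MulAction F X] (hG : Amenable G)
    (e : F →* G) (he : Function.Injective e) (x₀ : X) :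
    ∃ ν : Set X → ℝ, (∀ A, 0 ≤ ν A) ∧ ν univ = 1 ∧
      (∀ A B, Disjoint A B → ν (A ∪ B) = ν A + ν B) ∧
      ∀ (f : F) (A : Set X), ν ((fun x => f • x) '' A) = ν A := by
  classical
  obtain ⟨m, m0, m1, madd, minv⟩ := hG
  let R : Setoid G :=
    { r := fun g h => ∃ f : F, e f * g = h
      iseqv := by
        refine ⟨fun g => ⟨1, by simp⟩, ?_, ?_⟩
        · rintro g h ⟨f, rfl⟩
          exact ⟨f⁻¹, by simp⟩
        · rintro g h k ⟨f, rfl⟩ ⟨f', rfl⟩
          exact ⟨f' * f, by simp [mul_assoc]⟩ }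
  have hrep : ∀ g : G, ∃ f : F, e f * (Quotient.mk R g).out = g := fun g =>
    Quotient.exact (Quotient.out_eq (Quotient.mk R g))
  choose c hc using hrep
  have hc' : ∀ (f : F) (g : G), c (e f * g) = f * c g := by
    intro f g
    have h1 : Quotient.mk R (e f * g) = Quotient.mk R g := by
      apply Quotient.sound
      exact ⟨f⁻¹, by simp⟩
    have h2 := hc (e f * g)
    rw [h1] at h2
    have h3 := hc g
    apply he
    rw [map_mul]
    have h4 : e (c (e f * g)) * (Quotient.mk R g).out = e f * e (c g) * (Quotient.mk R g).out := by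
      rw [h2, mul_assoc, h3]
    exact mul_right_cancel h4
  let q : G → X := fun g => c g • x₀
  have hq : ∀ (f : F) (g : G), q (e f * g) = f • q g := by
    intro f g
    simp only [q]
    rw [hc', mul_smul]
  refine ⟨fun A => m (q ⁻¹' A), fun A => m0 _, by simpa using m1, ?_, ?_⟩
  · intro A B hAB
    show m (q ⁻¹' (A ∪ B)) = m (q ⁻¹' A) + m (q ⁻¹' B)
    rw [preimage_union]
    exact madd _ _ (hAB.preimage q)
  · intro f A
    have h1 : q ⁻¹' ((fun x => f • x) '' A) = e f • (q ⁻¹' A) := by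
      ext g
      rw [Set.mem_smul_set_iff_inv_smul_mem]
      simp only [mem_preimage, mem_image, smul_eq_mul]
      rw [← map_inv, hq]
      constructor
      · rintro ⟨x, hx, hxg⟩
        rw [← hxg, inv_smul_smul]
        exact hx
      · intro h
        exact ⟨f⁻¹ • q g, h, by rw [smul_inv_smul]⟩
    simp only []
    rw [h1, minv]

/-- An action with a ping-pong pair has no invariant mean; so a group containing one is not
amenable. -/
theorem not_amenable {G F X : Type} [Group G] [Group F] [MulAction F X]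
    (e : F →* G) (he : Function.Injective e) (x₀ : X) (a b : F) (P P' Q Q' : Set X)
    (ha : (fun x => a • x) '' P'ᶜ = P) (hb : (fun x => b • x) '' Q'ᶜ = Q)
    (h1 : Disjoint P P') (h2 : Disjoint Q Q') (h3 : Disjoint (P ∪ P') (Q ∪ Q')) :
    ¬ Amenable G := by
  intro hG
  obtain ⟨ν, ν0, ν1, νadd, νinv⟩ := exists_mean hG e he x₀
  have hcompl : ∀ A : Set X, ν A + ν Aᶜ = 1 := by
    intro A
    rw [← νadd _ _ disjoint_compl_right, union_compl_self, ν1]
  have e1 : ν P + ν P' = 1 := by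
    rw [← ha, νinv, add_comm]
    exact hcompl P'
  have e2 : ν Q + ν Q' = 1 := by
    rw [← hb, νinv, add_comm]
    exact hcompl Q'
  have e3 : ν ((P ∪ P') ∪ (Q ∪ Q')) = 2 := by
    rw [νadd _ _ h3, νadd _ _ h1, νadd _ _ h2, e1, e2]; norm_num
  have e4 := hcompl ((P ∪ P') ∪ (Q ∪ Q'))
  have e5 := ν0 ((P ∪ P') ∪ (Q ∪ Q'))ᶜ
  linarith

end Pool.Agent.V5helper76.AQ
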