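import Pool.Agent.V5helper76.AQ.Grp

/-!
# A group of order automorphisms of the rational numbers
-/

set_option autoImplicit false

open Set

namespace Pool.Agent.V5helper76.AQ

/-- The group of order automorphisms of `ℚ`. -/
abbrev AutQ : Type := ℚ ≃o ℚ

/-! ### The piecewise linear map -/

/-- on `[0, 1)` -/
def pl (y : ℚ) : ℚ := if y < 1 / 4 then 3 * y else 3 / 4 + (y - 1 / 4) / 3

def pl' (y : ℚ) : ℚ := if y < 3 / 4 then y / 3 else 1 / 4 + 3 * (y - 3 / 4)

theorem pl_mono {x y : ℚ} (h : x < y) : pl x < pl y := by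
  unfold pl
  split_ifs <;> linarith

theorem pl_nonneg {x : ℚ} (h : 0 ≤ x) : 0 ≤ pl x := by
  unfold pl; split_ifs <;> linarith

theorem pl_lt_one {x : ℚ} (h : x < 1) : pl x < 1 := by
  unfold pl; split_ifs <;> linarith

theorem pl'_nonneg {x : ℚ} (h : 0 ≤ x) : 0 ≤ pl' x := by
  unfold pl'; split_ifs <;> linarith

theorem pl'_lt_one {x : ℚ} (h : x < 1) : pl' x < 1 := by
  unfold pl'; split_ifs <;> linarith

theorem pl_pl' (x : ℚ) : pl (pl' x) = x := by
  unfold pl pl'
  split_ifs <;> linarith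

theorem pl'_pl (x : ℚ) : pl' (pl x) = x := by
  unfold pl pl'
  split_ifs <;> linarith

def per (f : ℚ → ℚ) (x : ℚ) : ℚ := ⌊x⌋ + f (Int.fract x)

theorem floor_per {f : ℚ → ℚ} (h0 : ∀ x, 0 ≤ x → 0 ≤ f x) (h1 : ∀ x, x < 1 → f x < 1) (x : ℚ) :
    ⌊per f x⌋ = ⌊x⌋ := by
  unfold per
  rw [Int.floor_intCast_add]
  have : ⌊f (Int.fract x)⌋ = 0 := by
    rw [Int.floor_eq_zero_iff]
    exact ⟨h0 _ (Int.fract_nonneg x), h1 _ (Int.fract_lt_one x)⟩
  rw [this, add_zero]

theorem fract_per {f : ℚ → ℚ} (h0 : ∀ x, 0 ≤ x → 0 ≤ f x) (h1 : ∀ x, x < 1 → f x < 1) (x : ℚ) :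
    Int.fract (per f x) = f (Int.fract x) := by
  have h := floor_per h0 h1 x
  unfold Int.fract
  rw [h]
  unfold per Int.fract
  ring

theorem per_pl_strictMono : StrictMono (per pl) := by
  intro x y hxy
  rcases (Int.floor_mono hxy.le).eq_or_lt with h | h
  · have h2 : Int.fract x < Int.fract y := by
      unfold Int.fract; rw [h]; linarith
    unfold per
    rw [h]
    linarith [pl_mono h2]
  · have h1 : per pl x < ⌊x⌋ + 1 := by
      unfold per; linarith [pl_lt_one (Int.fract_lt_one x)]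
    have h2 : (⌊y⌋ : ℚ) ≤ per pl y := by
      unfold per; linarith [pl_nonneg (Int.fract_nonneg y)]
    have h3 : (⌊x⌋ : ℚ) + 1 ≤ ⌊y⌋ := by exact_mod_cast h
    linarith

/-- the automorphism `a` of the rational line -/
def plA : AutQ := per_pl_strictMono.orderIsoOfRightInverse (per pl) (per pl') (by
  intro x
  have h1 := fract_per (fun _ => pl'_nonneg) (fun _ => pl'_lt_one) x
  have h2 := floor_per (fun _ => pl'_nonneg) (fun _ => pl'_lt_one) x
  show per pl (per pl' x) = x
  rw [per, h1, h2, pl_pl']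
  exact Int.floor_add_fract x)

theorem plA_apply (x : ℚ) : plA x = per pl x := rfl

theorem fract_plA (x : ℚ) : Int.fract (plA x) = pl (Int.fract x) :=
  fract_per (fun _ => pl_nonneg) (fun _ => pl_lt_one) x

theorem fract_plA_symm (x : ℚ) : Int.fract (plA.symm x) = pl' (Int.fract x) := by
  have h := fract_plA (plA.symm x)
  rw [OrderIso.apply_symm_apply] at h
  rw [h, pl'_pl]

/-- the complement of `{fract < 1/4}` is mapped onto `{3/4 ≤ fract}` -/
theorem plA_image : plA '' {x | Int.fract x < 1 / 4}ᶜ = {x | 3 / 4 ≤ Int.fract x} := by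
  ext x
  constructor
  · rintro ⟨y, hy, rfl⟩
    simp only [mem_compl_iff, mem_ofPred_eq, not_lt] at hy ⊢
    rw [fract_plA]
    unfold pl
    split_ifs <;> linarith
  · intro hx
    refine ⟨plA.symm x, ?_, plA.apply_symm_apply x⟩
    simp only [mem_compl_iff, mem_ofPred_eq, not_lt] at hx ⊢
    rw [fract_plA_symm]
    unfold pl'
    split_ifs <;> linarith

/-- translations -/
def tr (c : ℚ) : AutQ := OrderIso.addRight c

theorem tr_apply (c x : ℚ) : tr c x = x + c := rfl

/-- the automorphism `b`, conjugate of `a` by the translation by `1/2` -/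
def plB : AutQ := tr (1 / 2) * plA * (tr (1 / 2))⁻¹

theorem plB_image : plB '' {x | Int.fract (x - 1 / 2) < 1 / 4}ᶜ =
    {x | 3 / 4 ≤ Int.fract (x - 1 / 2)} := by
  have hinv : ∀ x, (tr (1 / 2))⁻¹ x = x - 1 / 2 := by
    intro x
    apply (tr (1 / 2)).injective
    show (tr (1 / 2) * (tr (1 / 2))⁻¹) x = _
    rw [mul_inv_cancel, tr_apply]
    show x = _
    ring
  have hB : ∀ x, plB x = plA (x - 1 / 2) + 1 / 2 := by
    intro x
    show tr (1 / 2) (plA ((tr (1 / 2))⁻¹ x)) = _
    rw [hinv, tr_apply]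
  have h := plA_image
  ext x
  constructor
  · rintro ⟨y, hy, rfl⟩
    simp only [mem_compl_iff, mem_ofPred_eq] at hy ⊢
    rw [hB, add_sub_cancel_right]
    have : plA (y - 1 / 2) ∈ {x | 3 / 4 ≤ Int.fract x} := by
      rw [← h]; exact ⟨_, hy, rfl⟩
    exact this
  · intro hx
    have h1 : x - 1 / 2 ∈ {x | 3 / 4 ≤ Int.fract x} := hx
    rw [← h] at h1
    obtain ⟨y, hy, hy2⟩ := h1
    refine ⟨y + 1 / 2, ?_, ?_⟩
    · simp only [mem_compl_iff, mem_ofPred_eq] at hy ⊢
      rw [add_sub_cancel_right]; exact hy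
    · rw [hB, add_sub_cancel_right, hy2]; ring

/-! ### Compression to a bounded interval -/

/-- the interval `(-1, 1)` -/
abbrev J : Type := Ioo (-1 : ℚ) 1

/-- the order isomorphism `ℚ ≃ (-1, 1)` -/
def rho : ℚ ≃o J := orderIsoIooNegOneOne ℚ

/-- extension of automorphisms of `(-1, 1)` by the identity -/
def extJ (f : J ≃o J) : AutQ where
  toEquiv := Equiv.Perm.ofSubtype (p := fun x : ℚ => x ∈ Ioo (-1 : ℚ) 1) f.toEquiv
  map_rel_iff' := by
    have key : ∀ x y : ℚ, x < y →
        Equiv.Perm.ofSubtype (p := fun x : ℚ => x ∈ Ioo (-1 : ℚ) 1) f.toEquiv x <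
        Equiv.Perm.ofSubtype (p := fun x : ℚ => x ∈ Ioo (-1 : ℚ) 1) f.toEquiv y := by
      intro x y hxy
      by_cases hx : x ∈ Ioo (-1 : ℚ) 1 <;> by_cases hy : y ∈ Ioo (-1 : ℚ) 1
      · rw [Equiv.Perm.ofSubtype_apply_of_mem _ hx, Equiv.Perm.ofSubtype_apply_of_mem _ hy]
        have : f ⟨x, hx⟩ < f ⟨y, hy⟩ := f.lt_iff_lt.2 hxy
        exact this
      · rw [Equiv.Perm.ofSubtype_apply_of_mem _ hx, Equiv.Perm.ofSubtype_apply_of_not_mem _ hy]
        have h1 : ((f ⟨x, hx⟩ : J) : ℚ) < 1 := (f ⟨x, hx⟩).2.2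
        have h2 : 1 ≤ y := by
          by_contra hc
          push Not at hc
          exact hy ⟨hx.1.trans hxy, hc⟩
        exact h1.trans_le h2
      · rw [Equiv.Perm.ofSubtype_apply_of_not_mem _ hx, Equiv.Perm.ofSubtype_apply_of_mem _ hy]
        have h1 : -1 < ((f ⟨y, hy⟩ : J) : ℚ) := (f ⟨y, hy⟩).2.1
        have h2 : x ≤ -1 := by
          by_contra hc
          push Not at hc
          exact hx ⟨hc, hxy.trans hy.2⟩
        exact h2.trans_lt h1
      · rw [Equiv.Perm.ofSubtype_apply_of_not_mem _ hx, Equiv.Perm.ofSubtype_apply_of_not_mem _ hy]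
        exact hxy
    intro x y
    constructor
    · intro h
      by_contra hc
      push Not at hc
      exact absurd h (not_le.2 (key _ _ hc))
    · intro h
      rcases h.eq_or_lt with h | h
      · rw [h]
      · exact (key _ _ h).le

theorem extJ_mem (f : J ≃o J) {x : ℚ} (hx : x ∈ Ioo (-1 : ℚ) 1) : extJ f x = f ⟨x, hx⟩ :=
  Equiv.Perm.ofSubtype_apply_of_mem _ hx

theorem extJ_not_mem (f : J ≃o J) {x : ℚ} (hx : x ∉ Ioo (-1 : ℚ) 1) : extJ f x = x :=
  Equiv.Perm.ofSubtype_apply_of_not_mem _ hx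

/-- compression of an automorphism of `ℚ` to `(-1, 1)` -/
def cmp (f : AutQ) : AutQ := extJ ((rho.symm.trans f).trans rho)

theorem cmp_mem (f : AutQ) {x : ℚ} (hx : x ∈ Ioo (-1 : ℚ) 1) :
    cmp f x = rho (f (rho.symm ⟨x, hx⟩)) := extJ_mem _ hx

theorem cmp_not_mem (f : AutQ) {x : ℚ} (hx : x ∉ Ioo (-1 : ℚ) 1) : cmp f x = x :=
  extJ_not_mem _ hx

/-- the three generators -/
def gA : AutQ := cmp plA
def gB : AutQ := cmp plB
def gT : AutQ := tr 1

/-- the group -/
def LL : Subgroup AutQ := Subgroup.closure {gA, gB, gT}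

/-! ### All elements of `LL` are translations near infinity -/

/-- near infinity `g` is the translation by `k` -/
def AtInf (g : AutQ) (k : ℤ) : Prop := ∃ R : ℚ, ∀ x, R < |x| → g x = x + k

theorem AtInf.unique {g : AutQ} {k l : ℤ} (h : AtInf g k) (h' : AtInf g l) : k = l := by
  obtain ⟨R, hR⟩ := h
  obtain ⟨S, hS⟩ := h'
  have h1 : max R S < |(|R| + |S| + 1)| := by
    have h2 := le_abs_self R
    have h3 := le_abs_self S
    have h4 := abs_nonneg R
    have h5 := abs_nonneg S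
    rw [abs_of_nonneg (by positivity)]
    apply max_lt <;> linarith
  have h2 := hR _ ((le_max_left _ _).trans_lt h1)
  have h3 := hS _ ((le_max_right _ _).trans_lt h1)
  rw [h2] at h3
  exact_mod_cast add_left_cancel h3

theorem AtInf.mul {g h : AutQ} {k l : ℤ} (hg : AtInf g k) (hh : AtInf h l) :
    AtInf (g * h) (k + l) := by
  obtain ⟨R, hR⟩ := hg
  obtain ⟨S, hS⟩ := hh
  refine ⟨max S (R + |(l : ℚ)|), fun x hx => ?_⟩
  have h1 := hS x ((le_max_left _ _).trans_lt hx)
  have h2 : R < |x + l| := by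
    have h3 := (le_max_right S (R + |(l : ℚ)|)).trans_lt hx
    have h4 : |x| ≤ |x + l| + |(l : ℚ)| := by
      have := abs_sub (x + l) (l : ℚ)
      rwa [add_sub_cancel_right] at this
    linarith
  show g (h x) = _
  rw [h1, hR _ h2]
  push_cast; ring

theorem AtInf.one : AtInf 1 0 := ⟨0, fun x _ => by simp⟩

theorem AtInf.inv {g : AutQ} {k : ℤ} (hg : AtInf g k) : AtInf g⁻¹ (-k) := by
  obtain ⟨R, hR⟩ := hg
  refine ⟨R + |(k : ℚ)|, fun x hx => ?_⟩
  have h2 : R < |x - k| := by
    have h4 : |x| ≤ |x - k| + |(k : ℚ)| := by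
      have := abs_add_le (x - k) (k : ℚ)
      rwa [sub_add_cancel] at this
    linarith
  have h3 := hR _ h2
  rw [sub_add_cancel] at h3
  have h4 : g⁻¹ x = g⁻¹ (g (x - k)) := by rw [h3]
  rw [h4]
  show (g⁻¹ * g) (x - k) = _
  rw [inv_mul_cancel]
  push_cast
  show x - k = _
  ring

theorem atInf_gT : AtInf gT 1 := ⟨0, fun x _ => by simp [gT, tr_apply]⟩

theorem atInf_cmp (f : AutQ) : AtInf (cmp f) 0 := by
  refine ⟨1, fun x hx => ?_⟩
  rw [cmp_not_mem]
  · simp
  · rintro ⟨h1, h2⟩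
    rw [lt_abs] at hx
    rcases hx with h | h <;> linarith

theorem exists_atInf {g : AutQ} (hg : g ∈ LL) : ∃ k : ℤ, AtInf g k := by
  induction hg using Subgroup.closure_induction with
  | mem x hx =>
    simp only [mem_insert_iff, mem_singleton_iff] at hx
    rcases hx with rfl | rfl | rfl
    · exact ⟨0, atInf_cmp _⟩
    · exact ⟨0, atInf_cmp _⟩
    · exact ⟨1, atInf_gT⟩
  | one => exact ⟨0, AtInf.one⟩
  | mul x y _ _ hx hy =>
    obtain ⟨k, hk⟩ := hx
    obtain ⟨l, hl⟩ := hy
    exact ⟨k + l, hk.mul hl⟩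
  | inv x _ hx =>
    obtain ⟨k, hk⟩ := hx
    exact ⟨-k, hk.inv⟩

/-- the translation at infinity -/
noncomputable def shift (g : LL) : ℤ := (exists_atInf g.2).choose

theorem shift_spec (g : LL) : AtInf g.1 (shift g) := (exists_atInf g.2).choose_spec

theorem shift_mul (g h : LL) : shift (g * h) = shift g + shift h :=
  (shift_spec (g * h)).unique ((shift_spec g).mul (shift_spec h))

def TT : LL := ⟨gT, Subgroup.subset_closure (by simp)⟩
def AA : LL := ⟨gA, Subgroup.subset_closure (by simp)⟩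
def BB : LL := ⟨gB, Subgroup.subset_closure (by simp)⟩

theorem shift_TT : shift TT = 1 := (shift_spec TT).unique atInf_gT

/-! ### Commuting conjugates -/

theorem gT_pow (n : ℕ) (x : ℚ) : (gT ^ n) x = x + n := by
  induction n generalizing x with
  | zero => simp
  | succ n ih =>
    rw [pow_succ]
    show (gT ^ n) (gT x) = _
    rw [ih]
    show x + 1 + n = _
    push_cast; ring

theorem gT_pow_inv (n : ℕ) (x : ℚ) : ((gT ^ n)⁻¹) x = x - n := by
  apply (gT ^ n).injective
  show (gT ^ n * (gT ^ n)⁻¹) x = _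
  rw [mul_inv_cancel, gT_pow]
  show x = _
  ring

theorem commute_of_far {a b : AutQ} {R : ℚ} (hR : 0 ≤ R) (ha : ∀ x, R < |x| → a x = x)
    (hb : ∀ x, R < |x| → b x = x) {n : ℕ} (hn : 2 * R < n) :
    Commute a (gT ^ n * b * (gT ^ n)⁻¹) := by
  have hc : ∀ x, (gT ^ n * b * (gT ^ n)⁻¹) x = b (x - n) + n := by
    intro x
    show (gT ^ n) (b ((gT ^ n)⁻¹ x)) = _
    rw [gT_pow_inv, gT_pow]
  have hmap : ∀ {f : AutQ}, (∀ x, R < |x| → f x = x) → ∀ x, |x| ≤ R → |f x| ≤ R := by
    intro f hf x hx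
    by_contra hcon
    push Not at hcon
    have h1 := hf _ hcon
    have h2 := f.injective h1
    rw [h2] at hcon
    exact absurd hcon (not_lt.2 hx)
  ext x
  show a ((gT ^ n * b * (gT ^ n)⁻¹) x) = (gT ^ n * b * (gT ^ n)⁻¹) (a x)
  rw [hc, hc]
  by_cases hx : |x| ≤ R
  · -- near the origin the conjugate is trivial
    have h1 : ∀ y, |y| ≤ R → b (y - n) = y - n := by
      intro y hy
      apply hb
      have h2 : (n : ℚ) ≤ |y - n| + |y| := by
        have := abs_sub y (y - n)
        rw [sub_sub_cancel] at this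
        rw [Nat.abs_cast] at this
        linarith
      linarith
    rw [h1 x hx, h1 (a x) (hmap ha x hx), sub_add_cancel, sub_add_cancel]
  · push Not at hx
    rw [ha x hx]
    apply ha
    by_cases hy : |x - n| ≤ R
    · have h2 := hmap hb _ hy
      have h3 : (n : ℚ) ≤ |b (x - n) + n| + |b (x - n)| := by
        have := abs_sub (b (x - n) + n) (b (x - n))
        rw [add_sub_cancel_left, Nat.abs_cast] at this
        linarith
      linarith
    · push Not at hy
      rw [hb _ hy, sub_add_cancel]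
      exact hx

theorem LL_additive {φ : LL → ℝ} (hφ : IsHQ φ) (g h : LL) : φ (g * h) = φ g + φ h := by
  refine hφ.additive_of_ker shift shift_mul TT shift_TT ?_ g h
  intro a b ha hb
  obtain ⟨R, hR⟩ := shift_spec a
  obtain ⟨S, hS⟩ := shift_spec b
  rw [ha] at hR
  rw [hb] at hS
  obtain ⟨n, hn⟩ := exists_nat_gt (2 * max (max R S) 0)
  let M : ℚ := max (max R S) 0
  have hM : 0 ≤ M := le_max_right _ _
  have hRM : R ≤ M := (le_max_left _ _).trans (le_max_left _ _)
  have hSM : S ≤ M := (le_max_right _ _).trans (le_max_left _ _)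
  have ha' : ∀ x, M < |x| → a.1 x = x := fun x hx => by
    have := hR x (hRM.trans_lt hx)
    simpa using this
  have hb' : ∀ x, M < |x| → b.1 x = x := fun x hx => by
    have := hS x (hSM.trans_lt hx)
    simpa using this
  have key : ∀ (f f' : LL), (∀ x, M < |x| → f.1 x = x) → (∀ x, M < |x| → f'.1 x = x) →
      ∀ k : ℕ, 1 ≤ k → Commute f ((TT ^ n) ^ k * f' * ((TT ^ n) ^ k)⁻¹) := by
    intro f f' hf hf' k hk
    rw [← pow_mul]
    have h1 : 2 * M < ((n * k : ℕ) : ℚ) := by
      have h2 : (n : ℚ) ≤ ((n * k : ℕ) : ℚ) := by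
        exact_mod_cast Nat.le_mul_of_pos_right n hk
      exact hn.trans_le h2
    have h2 := commute_of_far hM hf hf' h1
    apply Subtype.ext
    exact h2.eq
  exact hφ.add_of_tower (key a a ha' ha') (key b b hb' hb') (key b a hb' ha') (key a b ha' hb')

/-! ### Non-amenability -/

/-- the elements of `LL` supported in `(-1, 1)` -/
def FF : Subgroup LL where
  carrier := {g | ∀ x, x ∉ Ioo (-1 : ℚ) 1 → g.1 x = x}
  one_mem' := fun x _ => rfl
  mul_mem' := by
    intro a b ha hb x hx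
    show a.1 (b.1 x) = x
    rw [hb x hx, ha x hx]
  inv_mem' := by
    intro a ha x hx
    have h1 : a.1⁻¹ (a.1 x) = x := a.1.symm_apply_apply x
    rw [ha x hx] at h1
    exact h1

theorem FF_maps (g : FF) {x : ℚ} (hx : x ∈ Ioo (-1 : ℚ) 1) : g.1.1 x ∈ Ioo (-1 : ℚ) 1 := by
  by_contra hc
  have h1 := g.2 _ hc
  have h2 := g.1.1.injective h1
  rw [h2] at hc
  exact hc hx

instance : MulAction FF J where
  smul g x := ⟨g.1.1 x.1, FF_maps g x.2⟩
  one_smul x := rfl
  mul_smul g h x := rfl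

theorem FF_smul (g : FF) (x : J) : ((g • x : J) : ℚ) = g.1.1 x.1 := rfl

def fA : FF := ⟨AA, fun _ hx => cmp_not_mem _ hx⟩
def fB : FF := ⟨BB, fun _ hx => cmp_not_mem _ hx⟩

theorem fA_smul (x : J) : fA • x = rho (plA (rho.symm x)) := by
  apply Subtype.ext
  rw [FF_smul]
  exact cmp_mem plA x.2

theorem fB_smul (x : J) : fB • x = rho (plB (rho.symm x)) := by
  apply Subtype.ext
  rw [FF_smul]
  exact cmp_mem plB x.2

theorem image_rho {f : FF} {p : AutQ} (hf : ∀ x : J, f • x = rho (p (rho.symm x))) (S : Set ℚ) :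
    (fun x => f • x) '' (rho '' S)ᶜ = rho '' (p '' Sᶜ) := by
  ext x
  constructor
  · rintro ⟨y, hy, rfl⟩
    refine ⟨p (rho.symm y), ⟨rho.symm y, ?_, rfl⟩, (hf y).symm⟩
    intro h
    exact hy ⟨rho.symm y, h, rho.apply_symm_apply y⟩
  · rintro ⟨_, ⟨z, hz, rfl⟩, rfl⟩
    refine ⟨rho z, ?_, ?_⟩
    · rintro ⟨w, hw, hwz⟩
      rw [rho.injective hwz] at hw
      exact hz hw
    · show f • rho z = _
      rw [hf, rho.symm_apply_apply]

theorem LL_not_amenable {G : Type} [Group G] (e : LL →* G) (he : Function.Injective e) :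
    ¬ Amenable G := by
  refine not_amenable (F := FF) (X := J) (e.comp FF.subtype)
    (he.comp (Subgroup.subtype_injective FF)) ⟨0, by norm_num⟩ fA fB
    (rho '' {x | 3 / 4 ≤ Int.fract x}) (rho '' {x | Int.fract x < 1 / 4})
    (rho '' {x | 3 / 4 ≤ Int.fract (x - 1 / 2)}) (rho '' {x | Int.fract (x - 1 / 2) < 1 / 4})
    ?_ ?_ ?_ ?_ ?_
  · rw [image_rho fA_smul, plA_image]
  · rw [image_rho fB_smul, plB_image]
  · rw [disjoint_image_iff rho.injective, Set.disjoint_left]
    intro x hx hx'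
    simp only [mem_ofPred_eq] at hx hx'
    linarith
  · rw [disjoint_image_iff rho.injective, Set.disjoint_left]
    intro x hx hx'
    simp only [mem_ofPred_eq] at hx hx'
    linarith
  · rw [← image_union, ← image_union, disjoint_image_iff rho.injective, Set.disjoint_left]
    intro x hx hx'
    simp only [mem_union, mem_ofPred_eq] at hx hx'
    have h1 : ∃ n : ℤ, Int.fract (x - 1 / 2) = Int.fract x - 1 / 2 + n := by
      refine ⟨⌊x⌋ - ⌊x - 1 / 2⌋, ?_⟩
      unfold Int.fract
      push_cast; ring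
    obtain ⟨n, hn⟩ := h1
    have h2 := Int.fract_nonneg (x - 1 / 2)
    have h3 := Int.fract_lt_one (x - 1 / 2)
    have h4 := Int.fract_nonneg x
    have h5 := Int.fract_lt_one x
    have h6 : n = 0 ∨ n = 1 := by
      have a1 : (-1 : ℚ) < n := by linarith
      have a2 : (n : ℚ) < 2 := by linarith
      have b1 : -1 < n := by exact_mod_cast a1
      have b2 : n < 2 := by exact_mod_cast a2
      omega
    rcases h6 with rfl | rfl
    · push_cast at hn
      rcases hx with h | h <;> rcases hx' with h' | h' <;> linarith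
    · push_cast at hn
      rcases hx with h | h <;> rcases hx' with h' | h' <;> linarith

end Pool.Agent.V5helper76.AQ
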