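import Pool.Agent.V5helper76.AQ.Gap
import Pool.Agent.H659R3.BigMCG.Defs

/-!
# The plane minus a Cantor set, and the homeomorphisms given by automorphisms of `ℚ`
-/

set_option autoImplicit false

open Set Topology Filter unitInterval

namespace Pool.Agent.V5helper76.AQ

open Pool.Agent.H659R3.BigMCG

namespace LinCantor

variable (K : LinCantor)

/-- The Cantor set as a subset of the plane. -/
def set : Set ℂ := (fun x : ℝ => (x : ℂ)) '' K.carrier

/-- The plane minus the Cantor set. -/
abbrev Surf : Type := ((K.set)ᶜ : Set ℂ)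

variable {K}

theorem mem_set {z : ℂ} : z ∈ K.set ↔ z.im = 0 ∧ z.re ∈ K.carrier := by
  constructor
  · rintro ⟨x, hx, rfl⟩
    simpa using hx
  · rintro ⟨h1, h2⟩
    exact ⟨z.re, h2, Complex.ext (by simp) (by simp [h1])⟩

theorem isClosed_set : IsClosed K.set :=
  (K.compact.image Complex.continuous_ofReal).isClosed

theorem isOpen_compl : IsOpen ((K.set)ᶜ : Set ℂ) := isClosed_set.isOpen_compl

theorem isConnected_compl : IsConnected ((K.set)ᶜ : Set ℂ) := by
  have hU : IsPreconnected ({z : ℂ | 0 < z.im} : Set ℂ) :=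
    (convex_halfSpace_im_gt 0).isPreconnected
  have hL : IsPreconnected ({z : ℂ | z.im < 0} : Set ℂ) :=
    (convex_halfSpace_im_lt 0).isPreconnected
  have hU' : IsPreconnected ({z : ℂ | 0 ≤ z.im} ∩ (K.set)ᶜ : Set ℂ) := by
    refine hU.subset_closure ?_ ?_
    · intro z hz
      have hz : 0 < z.im := hz
      refine ⟨hz.le, fun h => ?_⟩
      rw [mem_set] at h
      exact hz.ne' h.1
    · intro z hz
      have h1 : closure ({z : ℂ | 0 < z.im} : Set ℂ) = {z : ℂ | 0 ≤ z.im} :=
        Complex.closure_setOfPred_lt_im 0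
      rw [h1]; exact hz.1
  have hL' : IsPreconnected ({z : ℂ | z.im ≤ 0} ∩ (K.set)ᶜ : Set ℂ) := by
    refine hL.subset_closure ?_ ?_
    · intro z hz
      have hz : z.im < 0 := hz
      refine ⟨hz.le, fun h => ?_⟩
      rw [mem_set] at h
      exact hz.ne h.1
    · intro z hz
      have h1 : closure ({z : ℂ | z.im < 0} : Set ℂ) = {z : ℂ | z.im ≤ 0} :=
        Complex.closure_setOfPred_im_lt 0
      rw [h1]; exact hz.1
  obtain ⟨x, -, -, hx⟩ := K.exists_not_mem (zero_lt_one (α := ℝ))
  have hxm : (x : ℂ) ∉ K.set := fun h => hx (by simpa using (mem_set.1 h).2)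
  refine ⟨⟨x, hxm⟩, ?_⟩
  have m1 : (x : ℂ) ∈ ({z : ℂ | 0 ≤ z.im} ∩ (K.set)ᶜ : Set ℂ) := by
    refine ⟨?_, hxm⟩
    show 0 ≤ (x : ℂ).im
    simp
  have m2 : (x : ℂ) ∈ ({z : ℂ | z.im ≤ 0} ∩ (K.set)ᶜ : Set ℂ) := by
    refine ⟨?_, hxm⟩
    show (x : ℂ).im ≤ 0
    simp
  have h := hU'.union (x : ℂ) m1 m2 hL'
  convert h using 1
  ext z
  constructor
  · intro hz
    rcases le_total 0 z.im with h1 | h1
    · exact Or.inl ⟨h1, hz⟩
    · exact Or.inr ⟨h1, hz⟩
  · rintro (h1 | h1)
    · exact h1.2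
    · exact h1.2

instance : ConnectedSpace K.Surf := isConnected_iff_connectedSpace.1 isConnected_compl

/-- the inclusion in the plane -/
noncomputable def inc : OpenPartialHomeomorph K.Surf ℂ :=
  haveI : Nonempty K.Surf := inferInstance
  isOpen_compl.isOpenEmbedding_subtypeVal.toOpenPartialHomeomorph _

theorem inc_apply (x : K.Surf) : inc x = (x : ℂ) := rfl
theorem inc_source : (inc (K := K)).source = Set.univ := rfl

theorem orientPresAt_refl (z : ℂ) : OrientPresAt (fun w => w) z := by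
  simpa using orientPresAt_add_const 0 z

/-- The complement of the Cantor set with the orientation of the plane. -/
noncomputable instance : OrientedSurface K.Surf where
  t2 := inferInstance
  secondCountable := inferInstance
  connected := inferInstance
  charts := {inc}
  cover := fun x => ⟨inc, rfl, by rw [inc_source]; trivial⟩
  oriented := by
    rintro _ rfl _ rfl x hx hx'
    refine (orientPresAt_refl (inc x)).congr ?_
    have hn : inc.target ∈ 𝓝 (inc x) := inc.open_target.mem_nhds (inc.map_source hx)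
    filter_upwards [hn] with w hw
    exact inc.right_inv hw

/-! ### The homeomorphisms -/

/-- the map `(x, y) ↦ (F x, y)` -/
noncomputable def pm (F : ℝ ≃o ℝ) (z : ℂ) : ℂ := ⟨F z.re, z.im⟩

theorem pm_continuous (F : ℝ ≃o ℝ) : Continuous (pm F) := by
  have h : pm F = fun z => ((F z.re : ℝ) : ℂ) + (z.im : ℂ) * Complex.I := by
    funext z
    apply Complex.ext <;> simp [pm]
  rw [h]
  have h1 : Continuous fun z : ℂ => F z.re := F.continuous.comp Complex.continuous_re
  exact (Complex.continuous_ofReal.comp h1).add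
    ((Complex.continuous_ofReal.comp Complex.continuous_im).mul continuous_const)

theorem pm_mem (φ : AutQ) (z : ℂ) : pm (K.act φ) z ∈ K.set ↔ z ∈ K.set := by
  rw [mem_set, mem_set]
  show z.im = 0 ∧ K.act φ z.re ∈ K.carrier ↔ _
  rw [act_mem]

theorem pm_inv (φ : AutQ) (z : ℂ) : pm (K.act φ⁻¹) (pm (K.act φ) z) = z := by
  apply Complex.ext
  · show K.act φ⁻¹ (K.act φ z.re) = z.re
    show (K.act φ⁻¹ * K.act φ) z.re = z.re
    rw [← map_mul, inv_mul_cancel, map_one]
    rfl
  · rfl

theorem pm_inv' (φ : AutQ) (z : ℂ) : pm (K.act φ) (pm (K.act φ⁻¹) z) = z := by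
  have := pm_inv (K := K) φ⁻¹ z
  rwa [inv_inv] at this

/-- the homeomorphism of the surface given by an automorphism of `ℚ` -/
noncomputable def sh (φ : AutQ) : K.Surf ≃ₜ K.Surf where
  toFun z := ⟨pm (K.act φ) z, fun h => z.2 ((pm_mem φ _).1 h)⟩
  invFun z := ⟨pm (K.act φ⁻¹) z, fun h => z.2 ((pm_mem φ⁻¹ _).1 h)⟩
  left_inv z := Subtype.ext (pm_inv φ z)
  right_inv z := Subtype.ext (pm_inv' φ z)
  continuous_toFun := ((pm_continuous _).comp continuous_subtype_val).subtype_mk _
  continuous_invFun := ((pm_continuous _).comp continuous_subtype_val).subtype_mk _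

theorem sh_val (φ : AutQ) (z : K.Surf) : ((sh φ z : K.Surf) : ℂ) = pm (K.act φ) z := rfl

theorem sh_mul (φ ψ : AutQ) : sh (K := K) (φ * ψ) = sh φ * sh ψ := by
  ext z
  show pm (K.act (φ * ψ)) z = pm (K.act φ) (pm (K.act ψ) z)
  rw [map_mul]
  rfl

theorem sh_one : sh (K := K) 1 = 1 := by
  ext z
  show pm (K.act 1) z = z
  rw [map_one]
  rfl

theorem orientPresAt_pm (F : ℝ ≃o ℝ) (z : ℂ) : OrientPresAt (pm F) z := by
  refine ⟨1, one_pos, fun r hr _ => ?_⟩
  have hc := hasWinding_circ hr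
  have hcont : Continuous fun t : ℝ =>
      pm F (z + r * Complex.exp (2 * Real.pi * t * Complex.I)) - pm F z := by
    refine ((pm_continuous F).comp ?_).sub continuous_const
    fun_prop
  refine hc.of_slit (continuous_circ r) hcont ?_ ?_
  · intro t
    have h1 := circ_add_one r t
    unfold circ at h1
    show pm F (z + r * Complex.exp (2 * Real.pi * (t + 1 : ℝ) * Complex.I)) - pm F z = _
    rw [h1]
  · intro t
    rw [Complex.mem_slitPlane_iff]
    left
    have hne := hc.ne_zero t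
    have hval : pm F (z + r * Complex.exp (2 * Real.pi * t * Complex.I)) - pm F z =
        ⟨F (z.re + (circ r t).re) - F z.re, (circ r t).im⟩ := by
      apply Complex.ext
      · simp [pm, circ]
      · simp [pm, circ]
    rw [hval, Complex.div_re]
    have hn : 0 < Complex.normSq (circ r t) := Complex.normSq_pos.2 hne
    rw [← add_div]
    apply div_pos _ hn
    show 0 < (F (z.re + (circ r t).re) - F z.re) * (circ r t).re + (circ r t).im * (circ r t).im
    rcases lt_trichotomy (circ r t).re 0 with h | h | h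
    · have h1 : F (z.re + (circ r t).re) < F z.re := F.lt_iff_lt.2 (by linarith)
      have h2 := mul_pos_of_neg_of_neg (sub_neg.2 h1) h
      have h3 := mul_self_nonneg (circ r t).im
      linarith
    · rw [h, mul_zero, zero_add]
      apply mul_self_pos.2
      intro h3
      exact hne (Complex.ext h h3)
    · have h1 : F z.re < F (z.re + (circ r t).re) := F.lt_iff_lt.2 (by linarith)
      have h2 := mul_pos (sub_pos.2 h1) h
      have h3 := mul_self_nonneg (circ r t).im
      linarith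

theorem preservesOrientation_sh (φ : AutQ) : PreservesOrientation (sh (K := K) φ) := by
  rintro _ rfl _ rfl x hx hx'
  refine (orientPresAt_pm (K.act φ) (inc x)).congr ?_
  have hn : inc.target ∈ 𝓝 (inc x) := inc.open_target.mem_nhds (inc.map_source hx)
  filter_upwards [hn] with w hw
  show pm (K.act φ) (inc (inc.symm w)) = pm (K.act φ) w
  rw [inc.right_inv hw]

theorem sh_inv (φ : AutQ) : (sh (K := K) φ)⁻¹ = sh φ⁻¹ := by
  rw [inv_eq_iff_mul_eq_one, ← sh_mul, mul_inv_cancel, sh_one]

/-- the homomorphism to the orientation-preserving homeomorphisms -/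
noncomputable def shPlus : AutQ →* HomeoPlus K.Surf where
  toFun φ := ⟨sh φ, preservesOrientation_sh φ, by rw [sh_inv]; exact preservesOrientation_sh _⟩
  map_one' := Subtype.ext sh_one
  map_mul' φ ψ := Subtype.ext (sh_mul φ ψ)

/-- the homomorphism to the mapping class group -/
noncomputable def toMCG : AutQ →* Map K.Surf := toMap.comp shPlus

/-! ### Isotopically trivial elements -/

/-- the boundary of the rectangle `[l, s] × [-1, 1]` -/
def frame (l s : ℝ) : Set ℂ :=
  (Icc l s ×ℂ Icc (-1) 1) ∩ {z | z.re = l ∨ z.re = s ∨ z.im = -1 ∨ z.im = 1}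

theorem isCompact_frame (l s : ℝ) : IsCompact (frame l s) := by
  refine (IsCompact.reProdIm isCompact_Icc isCompact_Icc).inter_right ?_
  have h1 : IsClosed {z : ℂ | z.re = l} := isClosed_eq Complex.continuous_re continuous_const
  have h2 : IsClosed {z : ℂ | z.re = s} := isClosed_eq Complex.continuous_re continuous_const
  have h3 : IsClosed {z : ℂ | z.im = -1} := isClosed_eq Complex.continuous_im continuous_const
  have h4 : IsClosed {z : ℂ | z.im = 1} := isClosed_eq Complex.continuous_im continuous_const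
  exact h1.union (h2.union (h3.union h4))

theorem frame_subset {l s : ℝ} (hl : l ∉ K.carrier) (hs : s ∉ K.carrier) :
    frame l s ⊆ (K.set)ᶜ := by
  rintro z ⟨-, hz⟩ hK
  rw [mem_set] at hK
  rcases hz with h | h | h | h
  · exact hl (h ▸ hK.2)
  · exact hs (h ▸ hK.2)
  · rw [h] at hK; norm_num at hK
  · rw [h] at hK; norm_num at hK

theorem isotopy_bound {φ : AutQ} (hφ : IsotopicToId (sh (K := K) φ)) {c l s : ℝ}
    (hc : c ∈ K.carrier) (hl : l ∉ K.carrier) (hs : s ∉ K.carrier) (hlc : l < c) (hcs : c < s) :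
    l < K.act φ c ∧ K.act φ c < s := by
  obtain ⟨Φ, h1, h2, h3⟩ := hφ
  let P : Set K.Surf := Subtype.val ⁻¹' frame l s
  have hP : IsCompact P := by
    rw [Subtype.isCompact_iff]
    have : Subtype.val '' P = frame l s := by
      rw [Subtype.image_preimage_coe]
      exact inter_eq_right.2 (frame_subset hl hs)
    rw [this]
    exact isCompact_frame l s
  let Q : Set (K.Surf × I) := Φ ⁻¹' (P ×ˢ univ)
  have hQ : IsCompact Q := by
    have : Q = Φ.symm '' (P ×ˢ univ) := by
      rw [Homeomorph.image_symm]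
    rw [this]
    exact (hP.prod isCompact_univ).image Φ.symm.continuous
  let Q' : Set ℂ := (fun q : K.Surf × I => (q.1 : ℂ)) '' Q
  have hQ' : IsClosed Q' := (hQ.image (continuous_subtype_val.comp continuous_fst)).isClosed
  have hcQ : (c : ℂ) ∉ Q' := by
    rintro ⟨q, -, hq⟩
    apply q.1.2
    have hq : (q.1 : ℂ) = c := hq
    rw [hq, mem_set]
    exact ⟨by simp, by simpa using hc⟩
  obtain ⟨ε, hε, hball⟩ := Metric.isOpen_iff.1 hQ'.isOpen_compl _ hcQ
  obtain ⟨y, hy0, hy⟩ := exists_between (lt_min hε one_pos)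
  let z0 : ℂ := ⟨c, y⟩
  have hz0K : z0 ∉ K.set := by
    rw [mem_set]
    rintro ⟨h, -⟩
    exact hy0.ne' h
  let z : K.Surf := ⟨z0, hz0K⟩
  have hz0Q : z0 ∉ Q' := by
    apply hball
    rw [Metric.mem_ball, Complex.dist_eq]
    have : z0 - (c : ℂ) = (y : ℂ) * Complex.I := by
      apply Complex.ext <;> simp [z0]
    rw [this, norm_mul, Complex.norm_I, mul_one, Complex.norm_real, Real.norm_of_nonneg hy0.le]
    exact hy.trans_le (min_le_left _ _)
  let γ : I → ℂ := fun t => ((Φ (z, t)).1 : ℂ)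
  have hγ : Continuous γ := by
    have : Continuous fun t : I => Φ (z, t) := Φ.continuous.comp (by fun_prop)
    exact continuous_subtype_val.comp (continuous_fst.comp this)
  have hγP : ∀ t, γ t ∉ frame l s := by
    intro t ht
    apply hz0Q
    exact ⟨(z, t), ⟨ht, trivial⟩, rfl⟩
  -- the open rectangle
  let R : Set ℂ := Ioo l s ×ℂ Ioo (-1) 1
  have hRo : IsOpen R := isOpen_Ioo.reProdIm isOpen_Ioo
  have hRc : IsClosed (Icc l s ×ℂ Icc (-1 : ℝ) 1) := isClosed_Icc.reProdIm isClosed_Icc
  have hRcl : ∀ t, γ t ∈ (Icc l s ×ℂ Icc (-1 : ℝ) 1) → γ t ∈ R := by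
    intro t ht
    have h4 := hγP t
    have h5 : ¬ ((γ t).re = l ∨ (γ t).re = s ∨ (γ t).im = -1 ∨ (γ t).im = 1) :=
      fun h => h4 ⟨ht, h⟩
    simp only [not_or] at h5
    obtain ⟨a1, a2, a3, a4⟩ := h5
    obtain ⟨⟨b1, b2⟩, ⟨b3, b4⟩⟩ := ht
    exact ⟨⟨lt_of_le_of_ne b1 (Ne.symm a1), lt_of_le_of_ne b2 a2⟩,
      ⟨lt_of_le_of_ne b3 (Ne.symm a3), lt_of_le_of_ne b4 a4⟩⟩
  have hclopen : IsClopen (γ ⁻¹' R) := by
    refine ⟨?_, hRo.preimage hγ⟩
    have : γ ⁻¹' R = γ ⁻¹' (Icc l s ×ℂ Icc (-1 : ℝ) 1) := by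
      ext t
      constructor
      · rintro ⟨⟨b1, b2⟩, ⟨b3, b4⟩⟩
        exact ⟨⟨b1.le, b2.le⟩, ⟨b3.le, b4.le⟩⟩
      · exact hRcl t
    rw [this]
    exact hRc.preimage hγ
  have hne : (γ ⁻¹' R).Nonempty := by
    refine ⟨0, ?_⟩
    show γ 0 ∈ R
    have : γ 0 = z0 := by
      show ((Φ (z, 0)).1 : ℂ) = z0
      rw [h2]
    rw [this]
    refine ⟨⟨hlc, hcs⟩, ⟨?_, ?_⟩⟩
    · show -1 < y
      linarith
    · show y < 1
      exact hy.trans_le (min_le_right _ _)
  have huniv := hclopen.eq_univ hne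
  have h1' : (1 : I) ∈ γ ⁻¹' R := by rw [huniv]; trivial
  have hγ1 : γ 1 = pm (K.act φ) z0 := by
    show ((Φ (z, 1)).1 : ℂ) = _
    rw [h3]
    rfl
  have h6 : γ 1 ∈ R := h1'
  rw [hγ1] at h6
  exact h6.1

theorem exists_above (c : ℝ) : ∃ s, c < s ∧ s ∉ K.carrier := by
  obtain ⟨s, hs⟩ := K.compact.bddAbove
  refine ⟨max c s + 1, ?_, fun hm => ?_⟩
  · have := le_max_left c s; linarith
  · have h1 := hs hm
    have h2 := le_max_right c s
    linarith

theorem exists_below (c : ℝ) : ∃ s, s < c ∧ s ∉ K.carrier := by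
  obtain ⟨s, hs⟩ := K.compact.bddBelow
  refine ⟨min c s - 1, ?_, fun hm => ?_⟩
  · have := min_le_left c s; linarith
  · have h1 := hs hm
    have h2 := min_le_right c s
    linarith

theorem act_eq_of_isotopic {φ : AutQ} (hφ : IsotopicToId (sh (K := K) φ)) {c : ℝ}
    (hc : c ∈ K.carrier) : K.act φ c = c := by
  rcases lt_trichotomy (K.act φ c) c with h | h | h
  · obtain ⟨l, h1, h2, h3⟩ := K.exists_not_mem h
    obtain ⟨s, h4, h5⟩ := exists_above (K := K) c
    have := (isotopy_bound hφ hc h3 h5 h2 h4).1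
    exact absurd h1 (not_lt.2 this.le)
  · exact h
  · obtain ⟨s, h1, h2, h3⟩ := K.exists_not_mem h
    obtain ⟨l, h4, h5⟩ := exists_below (K := K) c
    have := (isotopy_bound hφ hc h5 h3 h4 h1).2
    exact absurd h2 (not_lt.2 this.le)

theorem toMCG_injective : Function.Injective (toMCG (K := K)) := by
  rw [injective_iff_map_eq_one]
  intro φ hφ
  have h1 : toMap (shPlus (K := K) φ) = toMap 1 := by
    rw [map_one]; exact hφ
  rw [toMap_eq] at h1
  have h2 : (shPlus (K := K) φ) ∈ HomeoZero K.Surf := by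
    rw [mul_one] at h1
    exact (Subgroup.inv_mem_iff _).1 h1
  exact K.act_faithful fun c hc => act_eq_of_isotopic h2 hc

end LinCantor

end Pool.Agent.V5helper76.AQ
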